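import Mathlib
import Pool.Agent.Helper578.OG.Generic

/-! # Functionals clarifying a class of structures, and Kleene's `O` relative to a real -/

open Pool.Agent.Helper578.OG

namespace Pool.Agent.X235.Clar

/-- The reals: points of Cantor space, i.e. subsets of `ℕ`. -/
abbrev Cantor : Type := ℕ → Bool

/-- The real `x` as an oracle: `x n` is answered by `1` if `x n = true` and by `0` otherwise. -/
def orc (x : Cantor) : ℕ →. ℕ := fun n => Part.some (if x n then 1 else 0)

/-- The join of two reals. -/
def join (x y : Cantor) : Cantor := fun n => if n % 2 = 0 then x (n / 2) else y (n / 2)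

/-- The atomic diagram of the structure `(ℕ, r)` with one binary relation, as a real. -/
noncomputable def diag (r : ℕ → ℕ → Prop) : Cantor := by
  classical exact fun n => decide (r n.unpair.1 n.unpair.2)

/-- The functional `F` clarifies the class `K` of structures `(ℕ, r)`: if `(ℕ, r)` and `(ℕ, s)` are
isomorphic members of `K`, then some isomorphism between them is Turing computable from the join of
the values of `F` at the two structures. -/
def Clarifies (F : Cantor → Cantor) (K : Set (ℕ → ℕ → Prop)) : Prop :=
  ∀ r ∈ K, ∀ s ∈ K, Nonempty (r ≃r s) →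
    ∃ i : r ≃r s, TuringReducible (fun n => Part.some (i n)) (orc (join (F (diag r)) (F (diag s))))

/-- The class of well-orderings (with domain `ℕ`, given by the strict order). -/
def WellOrderings : Set (ℕ → ℕ → Prop) := {r | IsWellOrder ℕ r}

/-- The standard numbering of the oracle programs. -/
def prog : ℕ → OCode
  | 0 => .zero
  | 1 => .succ
  | 2 => .left
  | 3 => .right
  | 4 => .oracle
  | n + 5 =>
    have h : n / 4 < n + 5 := by omega
    have h1 : (n / 4).unpair.1 < n + 5 := (Nat.unpair_left_le _).trans_lt h
    have h2 : (n / 4).unpair.2 < n + 5 := (Nat.unpair_right_le _).trans_lt h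
    match n % 4 with
    | 0 => .pair (prog (n / 4).unpair.1) (prog (n / 4).unpair.2)
    | 1 => .comp (prog (n / 4).unpair.1) (prog (n / 4).unpair.2)
    | 2 => .prec (prog (n / 4).unpair.1) (prog (n / 4).unpair.2)
    | _ => .rfind (prog (n / 4))

/-- `Φ_e^x (n) = m`: the program number `e` with oracle `x` halts on input `n` with output `m`. -/
def Phi (e : ℕ) (x : Cantor) (n m : ℕ) : Prop := m ∈ (prog e).eval (orc x) n

mutual

/-- Kleene's set `O` of ordinal notations relative to `x`. -/
inductive InO (x : Cantor) : ℕ → Prop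
  | one : InO x 1
  | succ {a : ℕ} (ha : InO x a) : InO x (2 ^ a)
  | lim {e : ℕ} (f : ℕ → ℕ) (hf : ∀ n, Phi e x n (f n)) (h : ∀ n, LtO x (f n) (f (n + 1))) :
      InO x (3 * 5 ^ e)

/-- Kleene's order `<_O` relative to `x`. -/
inductive LtO (x : Cantor) : ℕ → ℕ → Prop
  | succ {a : ℕ} (ha : InO x a) : LtO x a (2 ^ a)
  | lim {e : ℕ} (f : ℕ → ℕ) (hf : ∀ n, Phi e x n (f n)) (h : ∀ n, LtO x (f n) (f (n + 1)))
      (n : ℕ) : LtO x (f n) (3 * 5 ^ e)
  | trans {a b c : ℕ} (hab : LtO x a b) (hbc : LtO x b c) : LtO x a c

end

/-- The functional `x ↦ O^x`. -/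
noncomputable def KleeneO (x : Cantor) : Cantor := by
  classical exact fun n => decide (InO x n)

end Pool.Agent.X235.Clar
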