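import Mathlib
import Pool.Agent.X235.Clar.Defs

/-! # Some oracle programs; the functional `x ↦ O^x` is injective -/

open Pool.Agent.Helper578.OG

namespace Pool.Agent.X235.Clar

/-- The numbering is onto. -/
theorem prog_surj (c : OCode) : ∃ e, prog e = c := by
  induction c with
  | zero => exact ⟨0, by rw [prog]⟩
  | succ => exact ⟨1, by rw [prog]⟩
  | left => exact ⟨2, by rw [prog]⟩
  | right => exact ⟨3, by rw [prog]⟩
  | oracle => exact ⟨4, by rw [prog]⟩
  | pair a b iha ihb =>
    obtain ⟨m, rfl⟩ := iha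
    obtain ⟨n, rfl⟩ := ihb
    refine ⟨4 * Nat.pair m n + 5, ?_⟩
    rw [prog]
    have h1 : 4 * Nat.pair m n / 4 = Nat.pair m n := by omega
    have h2 : 4 * Nat.pair m n % 4 = 0 := by omega
    simp only [h1, h2, Nat.unpair_pair]
  | comp a b iha ihb =>
    obtain ⟨m, rfl⟩ := iha
    obtain ⟨n, rfl⟩ := ihb
    refine ⟨4 * Nat.pair m n + 1 + 5, ?_⟩
    rw [prog]
    have h1 : (4 * Nat.pair m n + 1) / 4 = Nat.pair m n := by omega
    have h2 : (4 * Nat.pair m n + 1) % 4 = 1 := by omega
    simp only [h1, h2, Nat.unpair_pair]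
  | prec a b iha ihb =>
    obtain ⟨m, rfl⟩ := iha
    obtain ⟨n, rfl⟩ := ihb
    refine ⟨4 * Nat.pair m n + 2 + 5, ?_⟩
    rw [prog]
    have h1 : (4 * Nat.pair m n + 2) / 4 = Nat.pair m n := by omega
    have h2 : (4 * Nat.pair m n + 2) % 4 = 2 := by omega
    simp only [h1, h2, Nat.unpair_pair]
  | rfind a iha =>
    obtain ⟨m, rfl⟩ := iha
    refine ⟨4 * m + 3 + 5, ?_⟩
    rw [prog]
    have h1 : (4 * m + 3) / 4 = m := by omega
    have h2 : (4 * m + 3) % 4 = 3 := by omega
    simp only [h1, h2]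

/-- Programs of primitive recursive functions, ignoring the oracle. -/
theorem primrec_prog {f : ℕ → ℕ} (hf : Nat.Primrec f) :
    ∃ c : OCode, ∀ g n, c.eval g n = Part.some (f n) := by
  induction hf with
  | zero => exact ⟨.zero, fun g n => rfl⟩
  | succ => exact ⟨.succ, fun g n => rfl⟩
  | left => exact ⟨.left, fun g n => rfl⟩
  | right => exact ⟨.right, fun g n => rfl⟩
  | pair _ _ ih1 ih2 =>
    obtain ⟨a, ha⟩ := ih1
    obtain ⟨b, hb⟩ := ih2
    refine ⟨.pair a b, fun g n => ?_⟩
    simp only [OCode.eval, ha, hb]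
    simp [Seq.seq]
  | comp _ _ ih1 ih2 =>
    obtain ⟨a, ha⟩ := ih1
    obtain ⟨b, hb⟩ := ih2
    refine ⟨.comp a b, fun g n => ?_⟩
    simp only [OCode.eval, hb, Part.bind_some, ha]
  | @prec f h _ _ ih1 ih2 =>
    obtain ⟨a, ha⟩ := ih1
    obtain ⟨b, hb⟩ := ih2
    refine ⟨.prec a b, fun g n => ?_⟩
    simp only [OCode.eval, Nat.unpaired]
    generalize (Nat.unpair n).2 = k
    induction k with
    | zero => exact ha _ _
    | succ k ih =>
      simp only [hb] at ih ⊢
      rw [ih, Part.bind_some]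

theorem primrec_prog' {f : ℕ → ℕ} (hf : Primrec f) :
    ∃ c : OCode, ∀ g n, c.eval g n = Part.some (f n) :=
  primrec_prog (Primrec.nat_iff.1 hf)

/-- The search program: on input `k`, look for `v` such that the oracle answers `0` at `q ⟨k, v⟩`. -/
theorem search_prog {q : ℕ → ℕ} (hq : Primrec q) :
    ∃ e, ∀ (x : Cantor) (k v : ℕ), Phi e x k v ↔
      x (q (Nat.pair k v)) = false ∧ ∀ w < v, x (q (Nat.pair k w)) = true := by
  obtain ⟨c, hc⟩ := primrec_prog' hq
  obtain ⟨e, he⟩ := prog_surj (.rfind (.comp .oracle c))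
  refine ⟨e, fun x k v => ?_⟩
  rw [Phi, he]
  simp only [OCode.eval, hc, Part.bind_some]
  rw [Nat.mem_rfind]
  simp only [orc, Part.map_some, Part.mem_some_iff]
  constructor
  · rintro ⟨h1, h2⟩
    constructor
    · by_contra h
      simp [h] at h1
    · intro w hw
      have := h2 hw
      by_contra h
      simp [h] at this
  · rintro ⟨h1, h2⟩
    refine ⟨by simp [h1], fun {w} hw => by simp [h2 w hw]⟩

/-- The finite notations. -/
def fin (n : ℕ) : ℕ := Nat.rec 1 (fun _ a => 2 ^ a) n

theorem fin_zero : fin 0 = 1 := rfl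

theorem fin_succ (n : ℕ) : fin (n + 1) = 2 ^ fin n := rfl

theorem fin_primrec : Primrec fin := by
  have h : Primrec₂ (fun (_ : ℕ) (a : ℕ) => 2 ^ a) := by
    have h1 : Primrec (fun a : ℕ => 2 ^ a) := by
      refine (Primrec.nat_rec₁ (f := fun _ b => 2 * b) 1 ?_).of_eq fun n => ?_
      · exact Primrec.nat_mul.comp₂ (Primrec₂.const 2) Primrec₂.right
      · induction n with
        | zero => rfl
        | succ n ih => rw [pow_succ, mul_comm]; exact congrArg (2 * ·) ih
    exact h1.comp₂ Primrec₂.right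
  exact Primrec.nat_rec₁ 1 h

theorem fin_inO (x : Cantor) (n : ℕ) : InO x (fin n) := by
  induction n with
  | zero => exact InO.one
  | succ n ih => rw [fin_succ]; exact InO.succ ih

/-- A program which is total with oracle `x` if and only if `x n = false`, and then enumerates the
finite notations. -/
theorem guard_prog (n : ℕ) : ∃ e, ∀ (x : Cantor) (k v : ℕ),
    Phi e x k v ↔ x n = false ∧ v = fin k := by
  obtain ⟨c, hc⟩ := primrec_prog' (f := fun _ => n) (Primrec.const n)
  obtain ⟨d, hd⟩ := primrec_prog' (f := fun p => fin p.unpair.2)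
    (fin_primrec.comp (Primrec.snd.comp Primrec.unpair))
  obtain ⟨i, hi⟩ := primrec_prog' (f := fun p => p) Primrec.id
  obtain ⟨e, he⟩ := prog_surj (.comp d (.pair (.rfind (.comp .oracle c)) i))
  refine ⟨e, fun x k v => ?_⟩
  rw [Phi, he]
  simp only [OCode.eval, hc, Part.bind_some, hi]
  have h1 : ∀ w, w ∈ (Nat.rfind fun m => (orc x n).map fun m => decide (m = 0)) ↔
      x n = false ∧ w = 0 := by
    intro w
    rw [Nat.mem_rfind]
    simp only [orc, Part.map_some, Part.mem_some_iff]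
    constructor
    · rintro ⟨h1, h2⟩
      have h3 : x n = false := by
        by_contra h
        simp [h] at h1
      refine ⟨h3, ?_⟩
      by_contra hw
      have := h2 (m := 0) (Nat.pos_of_ne_zero hw)
      simp [h3] at this
    · rintro ⟨h1, rfl⟩
      exact ⟨by simp [h1], fun {m} hm => absurd hm (Nat.not_lt_zero m)⟩
  constructor
  · intro h
    rw [Part.mem_bind_iff] at h
    obtain ⟨p, hp, hv⟩ := h
    simp only [Seq.seq, Part.map_eq_map, Part.bind_map, Part.mem_bind_iff, Part.map_some,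
      Part.mem_some_iff] at hp
    obtain ⟨w, hw, rfl⟩ := hp
    obtain ⟨h2, rfl⟩ := (h1 w).1 hw
    rw [hd, Part.mem_some_iff] at hv
    simp only [Nat.unpair_pair] at hv
    exact ⟨h2, hv⟩
  · rintro ⟨h2, rfl⟩
    rw [Part.mem_bind_iff]
    refine ⟨Nat.pair 0 k, ?_, ?_⟩
    · simp only [Seq.seq, Part.map_eq_map, Part.bind_map, Part.mem_bind_iff, Part.map_some,
        Part.mem_some_iff]
      exact ⟨0, (h1 0).2 ⟨h2, rfl⟩, rfl⟩
    · rw [hd, Part.mem_some_iff]
      simp only [Nat.unpair_pair]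

theorem two_pow_ne {a e : ℕ} : 2 ^ a ≠ 3 * 5 ^ e := by
  intro h
  have h3 : 3 ∣ 2 ^ a := ⟨5 ^ e, h⟩
  have := Nat.Prime.dvd_of_dvd_pow Nat.prime_three h3
  omega

theorem three_five_inj {a b : ℕ} (h : 3 * 5 ^ a = 3 * 5 ^ b) : a = b :=
  Nat.pow_right_injective (le_refl 5 |>.trans' (by norm_num)) (by simpa using h)

theorem two_pow_inj {a b : ℕ} (h : 2 ^ a = 2 ^ b) : a = b :=
  Nat.pow_right_injective le_rfl h

theorem inO_lim {x : Cantor} {e : ℕ} (h : InO x (3 * 5 ^ e)) :
    ∃ f : ℕ → ℕ, (∀ n, Phi e x n (f n)) ∧ ∀ n, LtO x (f n) (f (n + 1)) := by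
  generalize hb : 3 * 5 ^ e = b at h
  cases h with
  | one => exfalso; have : 0 < 5 ^ e := by positivity
           omega
  | succ ha => exact absurd hb.symm two_pow_ne
  | lim f hf h =>
    have := three_five_inj hb
    subst this
    exact ⟨f, hf, h⟩

theorem kleeneO_apply (x : Cantor) (n : ℕ) : KleeneO x n = true ↔ InO x n := by
  classical
  simp [KleeneO]

theorem kleeneO_inj : Function.Injective KleeneO := by
  intro x y hxy
  funext n
  obtain ⟨e, he⟩ := guard_prog n
  have key : ∀ z : Cantor, KleeneO z (3 * 5 ^ e) = true ↔ z n = false := by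
    intro z
    rw [kleeneO_apply]
    constructor
    · intro h
      obtain ⟨f, hf, -⟩ := inO_lim h
      exact ((he z 0 _).1 (hf 0)).1
    · intro h
      refine InO.lim fin (fun k => (he z k _).2 ⟨h, rfl⟩) fun k => ?_
      rw [fin_succ]
      exact LtO.succ (fin_inO z k)
  have h1 := key x
  have h2 := key y
  rw [hxy] at h1
  have h3 : x n = false ↔ y n = false := h1.symm.trans h2
  cases hx : x n <;> cases hy : y n <;> simp_all

end Pool.Agent.X235.Clar
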