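import Mathlib
import Pool.Agent.X235.Clar.Codes

/-! # The functional: the graph of the isomorphism onto a chosen representative -/

open Pool.Agent.Helper578.OG Ordinal

namespace Pool.Agent.X235.Clar

/-- The relation coded by a real. -/
def rel (y : Cantor) : ℕ → ℕ → Prop := fun a b => y (Nat.pair a b) = true

theorem rel_diag (r : ℕ → ℕ → Prop) : rel (diag r) = r := by
  classical
  funext a b
  simp [rel, diag]

/-- The real codes a well-ordering. -/
def WO (y : Cantor) : Prop := IsWellOrder ℕ (rel y)

/-- The order type. -/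
noncomputable def otype (y : Cantor) (h : WO y) : Ordinal.{0} :=
  haveI : IsWellOrder ℕ (rel y) := h
  Ordinal.type (rel y)

theorem exists_rep (o : Ordinal.{0}) :
    ∃ z : Cantor, ∀ y (h : WO y), otype y h = o → Nonempty (rel y ≃r rel z) := by
  by_cases h : ∃ y, ∃ h : WO y, otype y h = o
  · obtain ⟨z, hz, rfl⟩ := h
    refine ⟨z, fun y hy he => ?_⟩
    have : IsWellOrder ℕ (rel y) := hy
    have : IsWellOrder ℕ (rel z) := hz
    exact Ordinal.type_eq.1 he
  · push Not at h
    exact ⟨fun _ => false, fun y hy he => absurd he (h y hy)⟩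

/-- The representative of the class of well-orderings of `ℕ` of type `o`. -/
noncomputable def rep (o : Ordinal.{0}) : Cantor := (exists_rep o).choose

/-- The isomorphism onto the representative. -/
noncomputable def toRep (y : Cantor) (h : WO y) : rel y ≃r rel (rep (otype y h)) :=
  ((exists_rep (otype y h)).choose_spec y h rfl).some

/-- The functional. -/
noncomputable def Fun : Cantor → Cantor := by
  classical
  exact fun y => if h : WO y then fun n => decide (toRep y h n.unpair.1 = n.unpair.2) else
    fun _ => false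

theorem fun_apply {y : Cantor} (h : WO y) (m k : ℕ) :
    Fun y (Nat.pair m k) = true ↔ toRep y h m = k := by
  classical
  simp [Fun, h]

theorem fun_of_not {y : Cantor} (h : ¬ WO y) : Fun y = fun _ => false := by
  classical
  simp [Fun, h]

/-- Search in an oracle. -/
theorem search_rec {J : Cantor} {q : ℕ → ℕ} (hq : Primrec q) {f : ℕ → ℕ}
    (h : ∀ m k, J (q (Nat.pair m k)) = true ↔ f m = k) :
    Nat.RecursiveIn {orc J} (fun n => Part.some (f n)) := by
  have h0 : Nat.RecursiveIn {orc J} (orc J) := Nat.RecursiveIn.oracle _ rfl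
  have h1 : Nat.RecursiveIn {orc J} (fun n => Part.some (q n)) :=
    Nat.Primrec.recursiveIn (Primrec.nat_iff.1 hq)
  have h2 : Nat.RecursiveIn {orc J} (fun n => Part.some (1 - n)) :=
    Nat.Primrec.recursiveIn (Primrec.nat_iff.1 (Primrec.nat_sub.comp (Primrec.const 1) Primrec.id))
  have h3 : Nat.RecursiveIn {orc J} (fun n => Part.some (1 - if J (q n) then 1 else 0)) :=
    (h2.comp (h0.comp h1)).of_eq fun n => by simp [orc]
  refine h3.rfind.of_eq fun m => ?_
  rw [Part.eq_some_iff, Nat.mem_rfind]
  refine ⟨?_, fun {k} hk => ?_⟩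
  · have := (h m (f m)).2 rfl
    simp [this]
  · have : J (q (Nat.pair m k)) = false := by
      by_contra hc
      have := (h m k).1 (by simpa using hc)
      omega
    simp [this]

theorem join_even (x y : Cantor) (n : ℕ) : join x y (2 * n) = x n := by
  have h1 : 2 * n % 2 = 0 := by omega
  have h2 : 2 * n / 2 = n := by omega
  simp [join, h1, h2]

theorem join_odd (x y : Cantor) (n : ℕ) : join x y (2 * n + 1) = y n := by
  have h1 : (2 * n + 1) % 2 ≠ 0 := by omega
  have h2 : (2 * n + 1) / 2 = n := by omega
  simp [join, h2]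

theorem clarifies : Clarifies Fun WellOrderings := by
  intro r hr s hs hrs
  have hr' : WO (diag r) := by
    unfold WO
    rw [rel_diag]
    exact hr
  have hs' : WO (diag s) := by
    unfold WO
    rw [rel_diag]
    exact hs
  have : IsWellOrder ℕ (rel (diag r)) := hr'
  have : IsWellOrder ℕ (rel (diag s)) := hs'
  have ho : otype (diag r) hr' = otype (diag s) hs' := by
    refine Ordinal.type_eq.2 ?_
    rw [rel_diag, rel_diag]
    exact hrs
  set i := toRep (diag r) hr' with hi
  set j := toRep (diag s) hs' with hj
  have h1 : ∀ a b, r a b ↔ rel (rep (otype (diag r) hr')) (i a) (i b) := by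
    intro a b
    rw [i.map_rel_iff, rel_diag]
  have h2 : ∀ a b, s a b ↔ rel (rep (otype (diag r) hr')) (j a) (j b) := by
    intro a b
    rw [ho, j.map_rel_iff, rel_diag]
  let e : ℕ ≃ ℕ := i.toEquiv.trans j.toEquiv.symm
  have he : ∀ a b, s (e a) (e b) ↔ r a b := by
    intro a b
    rw [h1, h2]
    simp only [e, Equiv.trans_apply]
    have : ∀ c, j (j.toEquiv.symm c) = c := fun c => j.toEquiv.apply_symm_apply c
    rw [this, this]
    rfl
  refine ⟨⟨e, fun {a b} => he a b⟩, ?_⟩
  rw [TuringReducible, RecursiveIn.iff_nat]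
  set J := join (Fun (diag r)) (Fun (diag s)) with hJ
  have g1 : Nat.RecursiveIn {orc J} (fun n => Part.some (i n)) := by
    refine search_rec (q := fun n => 2 * n)
      (Primrec.nat_mul.comp (Primrec.const 2) Primrec.id) fun m k => ?_
    rw [hJ, join_even, fun_apply hr']
  have g2 : Nat.RecursiveIn {orc J} (fun n => Part.some (j.toEquiv.symm n)) := by
    refine search_rec (q := fun n => 2 * Nat.pair n.unpair.2 n.unpair.1 + 1)
      (Primrec.succ.comp (Primrec.nat_mul.comp (Primrec.const 2) (Primrec₂.natPair.comp
        (Primrec.snd.comp Primrec.unpair) (Primrec.fst.comp Primrec.unpair)))) fun m k => ?_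
    rw [hJ, join_odd]
    simp only [Nat.unpair_pair]
    rw [fun_apply hs', Equiv.symm_apply_eq]
    exact eq_comm
  refine (g2.comp g1).of_eq fun n => ?_
  simp [e]

end Pool.Agent.X235.Clar
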