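import Mathlib

/-! # The Kunen–Martin theorem: analytic well-founded relations have countable rank -/

open MeasureTheory Filter Topology Ordinal

namespace Pool.Agent.X235.Clar

/-- A well-founded relation on a countable type has countable ranks. -/
theorem rank_lt_of_countable {N : Type} [Countable N] (E : N → N → Prop) [hE : IsWellFounded N E]
    (a : N) : IsWellFounded.rank E a < ω₁ := by
  induction a using hE.wf.induction with
  | _ a ih =>
    rw [IsWellFounded.rank_eq]
    refine Ordinal.iSup_lt_omega_one fun b => ?_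
    exact (Cardinal.isSuccLimit_omega 1).succ_lt (ih b.1 b.2)

variable {X : Type}

/-- Consistent finite approximations of witnesses of a finite descending sequence. -/
def Cons (f : (ℕ → ℕ) → X × X) (N : ℕ × (ℕ × ℕ →₀ ℕ)) : Prop :=
  ∀ i, i + 1 < N.1 → ∃ v w : ℕ → ℕ, (∀ j < N.1, v j = N.2 (i, j)) ∧
    (∀ j < N.1, w j = N.2 (i + 1, j)) ∧ (f v).1 = (f w).2

/-- `M` is a one-step extension of `N`. -/
def Ext (f : (ℕ → ℕ) → X × X) (M N : ℕ × (ℕ × ℕ →₀ ℕ)) : Prop :=
  M.1 = N.1 + 1 ∧ (∀ i < N.1, ∀ j < N.1, M.2 (i, j) = N.2 (i, j)) ∧ Cons f M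

theorem ext_wf [TopologicalSpace X] [T2Space X] {f : (ℕ → ℕ) → X × X} (hf : Continuous f)
    {r : X → X → Prop} (hr : WellFounded r) (hfr : ∀ u, r (f u).1 (f u).2) :
    WellFounded (Ext f) := by
  rw [wellFounded_iff_isEmpty_descending_chain]
  refine ⟨fun ⟨N, hN⟩ => ?_⟩
  have hlev : ∀ k, (N k).1 = (N 0).1 + k := by
    intro k
    induction k with
    | zero => rfl
    | succ k ih => rw [(hN k).1, ih]; omega
  -- the limit
  let u : ℕ → ℕ → ℕ := fun i j => (N (i + j + 1)).2 (i, j)
  have hstab : ∀ i j k, i < (N k).1 → j < (N k).1 → ∀ l, (N (k + l)).2 (i, j) = (N k).2 (i, j) := by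
    intro i j k hi hj l
    induction l with
    | zero => rfl
    | succ l ih =>
      have h1 := (hN (k + l)).2.1 i (by rw [hlev] at *; omega) j (by rw [hlev] at *; omega)
      rw [← ih, ← h1]
      rfl
  have hu : ∀ i j k, i + j + 1 ≤ k → (N k).2 (i, j) = u i j := by
    intro i j k hk
    obtain ⟨l, rfl⟩ := Nat.exists_eq_add_of_le hk
    exact hstab i j (i + j + 1) (by rw [hlev]; omega) (by rw [hlev]; omega) l
  have key : ∀ i, (f (u i)).1 = (f (u (i + 1))).2 := by
    intro i
    have h1 : ∀ k, ∃ v w : ℕ → ℕ, (∀ j < k, v j = u i j) ∧ (∀ j < k, w j = u (i + 1) j) ∧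
        (f v).1 = (f w).2 := by
      intro k
      obtain ⟨v, w, hv, hw, he⟩ := (hN (i + k + 2)).2.2 i (by rw [hlev]; omega)
      refine ⟨v, w, fun j hj => ?_, fun j hj => ?_, he⟩
      · rw [hv j (by rw [hlev]; omega), hu i j _ (by omega)]
      · rw [hw j (by rw [hlev]; omega), hu (i + 1) j _ (by omega)]
    choose v w hv hw he using h1
    have hvt : Tendsto v atTop (𝓝 (u i)) := by
      rw [tendsto_pi_nhds]
      intro j
      refine tendsto_nhds_of_eventually_eq ?_
      filter_upwards [eventually_gt_atTop j] with k hk using hv k j hk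
    have hwt : Tendsto w atTop (𝓝 (u (i + 1))) := by
      rw [tendsto_pi_nhds]
      intro j
      refine tendsto_nhds_of_eventually_eq ?_
      filter_upwards [eventually_gt_atTop j] with k hk using hw k j hk
    have h2 : Tendsto (fun k => (f (v k)).1) atTop (𝓝 (f (u i)).1) :=
      ((continuous_fst.comp hf).tendsto _).comp hvt
    have h3 : Tendsto (fun k => (f (w k)).2) atTop (𝓝 (f (u (i + 1))).2) :=
      ((continuous_snd.comp hf).tendsto _).comp hwt
    simp only [he] at h2
    exact tendsto_nhds_unique h2 h3
  refine (wellFounded_iff_isEmpty_descending_chain.1 hr).elim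
    ⟨fun i => (f (u i)).2, fun i => ?_⟩
  show r (f (u (i + 1))).2 (f (u i)).2
  rw [← key i]
  exact hfr _

/-- The node of the witnesses `w` at level `n`. -/
noncomputable def node (w : ℕ → ℕ → ℕ) (n : ℕ) : ℕ × (ℕ × ℕ →₀ ℕ) :=
  (n, Finsupp.onFinset (Finset.range n ×ˢ Finset.range n)
    (fun p => if p.1 < n ∧ p.2 < n then w p.1 p.2 else 0) (fun p hp => by
      by_contra h
      apply hp
      rw [if_neg]
      simpa using h))

theorem node_apply {w : ℕ → ℕ → ℕ} {n i j : ℕ} (hi : i < n) (hj : j < n) :
    (node w n).2 (i, j) = w i j := by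
  simp [node, hi, hj]

theorem km [TopologicalSpace X] [T2Space X] (r : X → X → Prop) [hr : IsWellFounded X r]
    (ha : AnalyticSet {p : X × X | r p.1 p.2}) :
    ∃ α, α < ω₁ ∧ ∀ x, IsWellFounded.rank r x ≤ α := by
  rw [AnalyticSet] at ha
  rcases ha with h0 | ⟨f, hf, hfr⟩
  · refine ⟨0, Ordinal.omega_pos 1, fun x => ?_⟩
    rw [IsWellFounded.rank_eq]
    refine Ordinal.iSup_le fun b => ?_
    exfalso
    have : (b.1, x) ∈ ({p : X × X | r p.1 p.2} : Set _) := b.2
    rw [h0] at this
    exact this
  · have hfr1 : ∀ u, r (f u).1 (f u).2 := fun u => by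
      have : f u ∈ Set.range f := ⟨u, rfl⟩
      rw [hfr] at this
      exact this
    have hfr2 : ∀ a b, r a b → ∃ u, f u = (a, b) := fun a b hab => by
      have : (a, b) ∈ ({p : X × X | r p.1 p.2} : Set _) := hab
      rw [← hfr] at this
      exact this
    have hE : IsWellFounded _ (Ext f) := ⟨ext_wf hf hr.wf hfr1⟩
    refine ⟨IsWellFounded.rank (Ext f) (node 0 0), rank_lt_of_countable _ _, ?_⟩
    have key : ∀ x, ∀ (w : ℕ → ℕ → ℕ) (n : ℕ), (∀ i, i + 1 < n → (f (w i)).1 = (f (w (i + 1))).2) →
        (∀ m, n = m + 1 → (f (w m)).1 = x) →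
        IsWellFounded.rank r x ≤ IsWellFounded.rank (Ext f) (node w n) := by
      intro x
      induction x using hr.wf.induction with
      | _ x ih =>
        intro w n h1 h2
        rw [IsWellFounded.rank_eq]
        refine Ordinal.iSup_le ?_
        rintro ⟨y, hy⟩
        obtain ⟨u, hu⟩ := hfr2 y x hy
        have h3 : ∀ i, i < n → Function.update w n u i = w i := fun i hi =>
          Function.update_of_ne hi.ne _ _
        have h4 : Function.update w n u n = u := Function.update_self _ _ _
        have h5 := ih y hy (Function.update w n u) (n + 1) ?_ ?_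
        · refine Order.succ_le_of_lt (lt_of_le_of_lt h5 (IsWellFounded.rank_lt_of_rel ?_))
          refine ⟨rfl, fun i hi j hj => ?_, fun i hi => ?_⟩
          · have hi' : i < n := hi
            have hj' : j < n := hj
            rw [node_apply (by omega) (by omega), node_apply hi' hj', h3 i hi']
          · have hi' : i + 1 < n + 1 := hi
            refine ⟨Function.update w n u i, Function.update w n u (i + 1), fun j hj => ?_,
              fun j hj => ?_, ?_⟩
            · exact (node_apply (by omega) hj).symm
            · exact (node_apply (by omega) hj).symm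
            · rcases Nat.lt_succ_iff_lt_or_eq.1 hi' with h | h
              · rw [h3 _ (by omega), h3 _ h]
                exact h1 i h
              · rw [h3 _ (by omega), h, h4, hu]
                exact h2 i h.symm
        · intro i hi
          rcases Nat.lt_succ_iff_lt_or_eq.1 hi with h | h
          · rw [h3 _ (by omega), h3 _ h]
            exact h1 i h
          · rw [h3 _ (by omega), h, h4, hu]
            exact h2 i h.symm
        · intro m hm
          have : m = n := by omega
          rw [this, h4, hu]
    intro x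
    exact key x 0 0 (fun i hi => absurd hi (by omega)) (fun m hm => absurd hm (by omega))

end Pool.Agent.X235.Clar
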