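import Mathlib
import Pool.Agent.X235.Clar.Codes

/-! # Notations of all countable ordinals relative to suitable reals -/

open Pool.Agent.Helper578.OG Ordinal

namespace Pool.Agent.X235.Clar

/-- Position of the triple `(i, k, v)`. -/
def pos (i p : ℕ) : ℕ := Nat.pair i p + 1

theorem pos_primrec (i : ℕ) : Primrec (pos i) :=
  Primrec.succ.comp (Primrec₂.natPair.comp (Primrec.const i) Primrec.id)

/-- The program which reads row `i`. -/
noncomputable def row (i : ℕ) : ℕ := (search_prog (pos_primrec i)).choose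

theorem row_spec (i : ℕ) (x : Cantor) (k v : ℕ) : Phi (row i) x k v ↔
    x (pos i (Nat.pair k v)) = false ∧ ∀ w < v, x (pos i (Nat.pair k w)) = true :=
  (search_prog (pos_primrec i)).choose_spec x k v

theorem countable_Iio {o : Ordinal.{0}} (ho : o < ω₁) : (Set.Iio o).Countable := by
  rw [← Cardinal.le_aleph0_iff_set_countable, Cardinal.mk_Iio_ordinal]
  have h1 : o.card < Cardinal.aleph 1 := by
    rw [← Cardinal.lt_ord, Cardinal.ord_aleph]
    exact ho
  have h2 : o.card ≤ Cardinal.aleph0 := by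
    rw [← Cardinal.succ_aleph0] at h1
    exact Order.lt_succ_iff.1 h1
  exact (Cardinal.lift_le.2 h2).trans_eq Cardinal.lift_aleph0

/-- A fundamental sequence of a countable limit ordinal. -/
theorem exists_fund {o : Ordinal.{0}} (ho : o < ω₁) (hl : Order.IsSuccLimit o) :
    ∃ f : ℕ → Ordinal.{0}, (∀ k, f k < o) ∧ (∀ k, f k < f (k + 1)) ∧ ∀ c < o, ∃ k, c ≤ f k := by
  have hne : (Set.Iio o).Nonempty := ⟨0, by
    rw [Set.mem_Iio]
    exact pos_iff_ne_zero.2 (fun h => hl.ne_bot (by rw [h]; rfl))⟩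
  obtain ⟨h, hh⟩ := (countable_Iio ho).exists_eq_range hne
  have hlt : ∀ k, h k < o := fun k => by
    have : h k ∈ Set.Iio o := by rw [hh]; exact ⟨k, rfl⟩
    exact this
  let f : ℕ → Ordinal.{0} := fun k => Nat.rec (h 0) (fun k a => max (Order.succ a) (h (k + 1))) k
  have hf : ∀ k, f (k + 1) = max (Order.succ (f k)) (h (k + 1)) := fun k => rfl
  refine ⟨f, fun k => ?_, fun k => ?_, fun c hc => ?_⟩
  · induction k with
    | zero => exact hlt 0
    | succ k ih =>
      rw [hf]
      exact max_lt (hl.succ_lt ih) (hlt _)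
  · rw [hf]
    exact lt_of_lt_of_le (Order.lt_succ _) (le_max_left _ _)
  · have : c ∈ Set.Iio o := hc
    rw [hh] at this
    obtain ⟨k, rfl⟩ := this
    refine ⟨k, ?_⟩
    cases k with
    | zero => exact le_rfl
    | succ k => rw [hf]; exact le_max_right _ _

/-- Fundamental sequences. -/
noncomputable def fund (o : Ordinal.{0}) : ℕ → Ordinal.{0} := by
  classical
  exact if h : o < ω₁ ∧ Order.IsSuccLimit o then (exists_fund h.1 h.2).choose else fun _ => 0

theorem fund_spec {o : Ordinal.{0}} (ho : o < ω₁) (hl : Order.IsSuccLimit o) :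
    (∀ k, fund o k < o) ∧ (∀ k, fund o k < fund o (k + 1)) ∧ ∀ c < o, ∃ k, c ≤ fund o k := by
  classical
  have h : o < ω₁ ∧ Order.IsSuccLimit o := ⟨ho, hl⟩
  rw [fund, dif_pos h]
  exact (exists_fund h.1 h.2).choose_spec

/-- The notation of `o`, if `j` numbers the ordinals. -/
noncomputable def nu (j : Ordinal.{0} → ℕ) (o : Ordinal.{0}) : ℕ :=
  Ordinal.limitRecOn (motive := fun _ => ℕ) o 1 (fun _ a => 2 ^ a) (fun o _ _ => 3 * 5 ^ row (j o))

theorem nu_zero (j : Ordinal.{0} → ℕ) : nu j 0 = 1 := by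
  rw [nu, Ordinal.limitRecOn_zero]

theorem nu_succ (j : Ordinal.{0} → ℕ) (o : Ordinal.{0}) : nu j (o + 1) = 2 ^ nu j o := by
  rw [nu, Ordinal.limitRecOn_add_one]
  rfl

theorem nu_limit (j : Ordinal.{0} → ℕ) {o : Ordinal.{0}} (ho : Order.IsSuccLimit o) :
    nu j o = 3 * 5 ^ row (j o) := by
  rw [nu, Ordinal.limitRecOn_limit]
  exact ho

/-- The real which makes the notations below `a` right. -/
noncomputable def real (j : Ordinal.{0} → ℕ) (a : Ordinal.{0}) (b : Bool) : Cantor := by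
  classical
  exact fun n => if n = 0 then b else
    !decide (∃ o, o < a ∧ j o = (n - 1).unpair.1 ∧
      nu j (fund o (n - 1).unpair.2.unpair.1) = (n - 1).unpair.2.unpair.2)

theorem real_zero (j : Ordinal.{0} → ℕ) (a : Ordinal.{0}) (b : Bool) : real j a b 0 = b := by
  simp [real]

theorem real_pos {j : Ordinal.{0} → ℕ} {a : Ordinal.{0}} (hj : Set.InjOn j (Set.Iio a)) (b : Bool)
    {o : Ordinal.{0}} (ho : o < a) (k v : ℕ) :
    real j a b (pos (j o) (Nat.pair k v)) = false ↔ nu j (fund o k) = v := by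
  classical
  simp only [real, pos, Nat.add_eq_zero_iff, one_ne_zero, and_false, if_false,
    Nat.add_sub_cancel, Nat.unpair_pair]
  rw [Bool.not_eq_false', decide_eq_true_iff]
  constructor
  · rintro ⟨o', h1, h2, h3⟩
    rw [hj h1 ho h2] at h3
    exact h3
  · intro h
    exact ⟨o, ho, rfl, h⟩

theorem row_real {j : Ordinal.{0} → ℕ} {a : Ordinal.{0}} (hj : Set.InjOn j (Set.Iio a)) (b : Bool)
    {o : Ordinal.{0}} (ho : o < a) (k : ℕ) : Phi (row (j o)) (real j a b) k (nu j (fund o k)) := by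
  rw [row_spec]
  refine ⟨(real_pos hj b ho k _).2 rfl, fun w hw => ?_⟩
  by_contra h
  rw [Bool.not_eq_true, real_pos hj b ho] at h
  omega

theorem nu_main {j : Ordinal.{0} → ℕ} {a : Ordinal.{0}} (ha : a < ω₁) (hj : Set.InjOn j (Set.Iio a))
    (b : Bool) {T : Cantor × ℕ → Cantor × ℕ → Prop} [hT : IsWellFounded _ T]
    (hT1 : ∀ c, InO (real j a b) (2 ^ c) → T (real j a b, c) (real j a b, 2 ^ c))
    (hT2 : ∀ c e k, InO (real j a b) (3 * 5 ^ e) → Phi e (real j a b) k c →
      T (real j a b, c) (real j a b, 3 * 5 ^ e)) :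
    ∀ o < a, InO (real j a b) (nu j o) ∧ (∀ c < o, LtO (real j a b) (nu j c) (nu j o)) ∧
      o ≤ IsWellFounded.rank T (real j a b, nu j o) := by
  intro o
  induction o using Ordinal.limitRecOn with
  | zero =>
    intro _
    rw [nu_zero]
    exact ⟨InO.one, fun c hc => absurd hc not_lt_zero, zero_le⟩
  | add_one o ih =>
    intro h
    obtain ⟨h1, h2, h3⟩ := ih ((Order.lt_add_one_iff.2 le_rfl).trans h)
    rw [nu_succ]
    refine ⟨InO.succ h1, fun c hc => ?_, ?_⟩
    · rcases (Order.lt_add_one_iff.1 hc).lt_or_eq with h | rfl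
      · exact (h2 c h).trans (LtO.succ h1)
      · exact LtO.succ h1
    · exact Order.add_one_le_of_lt (lt_of_le_of_lt h3 (IsWellFounded.rank_lt_of_rel
        (hT1 _ (InO.succ h1))))
  | limit o hl ih =>
    intro h
    have ho : o < ω₁ := h.trans ha
    obtain ⟨f1, f2, f3⟩ := fund_spec ho hl
    have hP := row_real hj b h
    have hL : ∀ k, LtO (real j a b) (nu j (fund o k)) (nu j (fund o (k + 1))) := fun k =>
      (ih _ (f1 (k + 1)) ((f1 _).trans h)).2.1 _ (f2 k)
    have hO : InO (real j a b) (3 * 5 ^ row (j o)) :=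
      InO.lim (fun k => nu j (fund o k)) hP hL
    have hLt : ∀ k, LtO (real j a b) (nu j (fund o k)) (3 * 5 ^ row (j o)) := fun k =>
      LtO.lim (fun k => nu j (fund o k)) hP hL k
    rw [nu_limit j hl]
    refine ⟨hO, fun c hc => ?_, ?_⟩
    · obtain ⟨k, hk⟩ := f3 c hc
      exact ((ih _ (f1 (k + 1)) ((f1 _).trans h)).2.1 c (lt_of_le_of_lt hk (f2 k))).trans
        (hLt (k + 1))
    · refine le_of_forall_lt fun c hc => ?_
      obtain ⟨k, hk⟩ := f3 c hc
      exact lt_of_le_of_lt (hk.trans (ih _ (f1 k) ((f1 _).trans h)).2.2)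
        (IsWellFounded.rank_lt_of_rel (hT2 _ _ k hO (hP k)))

end Pool.Agent.X235.Clar
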