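import Mathlib
import Pool.Agent.X235.Clar.KM
import Pool.Agent.X235.Clar.Func
import Pool.Agent.X235.Clar.Unb

/-! # There is no Borel reduction of `x ↦ O^x` to the functional -/

open Pool.Agent.Helper578.OG Ordinal MeasureTheory Set

namespace Pool.Agent.X235.Clar

open scoped InitialSeg

instance : PolishSpace (ℕ → Bool) := by constructor

instance : PolishSpace ((Cantor × ℕ) × (Cantor × ℕ)) := by constructor

theorem analytic_inter {X : Type} [TopologicalSpace X] [T2Space X] {s t : Set X}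
    (hs : AnalyticSet s) (ht : AnalyticSet t) : AnalyticSet (s ∩ t) := by
  rw [Set.inter_eq_iInter]
  exact AnalyticSet.iInter fun b => by cases b <;> assumption

/-- The relations to which the Kunen–Martin theorem is applied. -/
theorem analytic_rel {A : Set (Cantor × ℕ)} (hA : AnalyticSet A)
    {B : Set ((Cantor × ℕ) × (Cantor × ℕ))} (hB : MeasurableSet B) :
    AnalyticSet {p : (Cantor × ℕ) × (Cantor × ℕ) | p.1.1 = p.2.1 ∧ (p.1.1, p.2.2) ∈ A ∧ p ∈ B} := by
  have h1 : AnalyticSet {p : (Cantor × ℕ) × (Cantor × ℕ) | p.1.1 = p.2.1} :=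
    (isClosed_eq (by fun_prop) (by fun_prop)).analyticSet
  have h2 : AnalyticSet ((fun p : (Cantor × ℕ) × (Cantor × ℕ) => (p.1.1, p.2.2)) ⁻¹' A) :=
    hA.preimage (by fun_prop)
  exact analytic_inter h1 (analytic_inter h2 hB.analyticSet)

theorem isOpen_phi (e k a : ℕ) : IsOpen {x : Cantor | Phi e x k a} := by
  rw [isOpen_iff_mem_nhds]
  intro x hx
  obtain ⟨m, hm⟩ := use_principle _ _ _ _ (show a ∈ (prog e).eval (orc x) k from hx)
  have h1 : {y : Cantor | ∀ i ∈ Finset.range m, y i = x i} ∈ nhds x := by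
    have : {y : Cantor | ∀ i ∈ Finset.range m, y i = x i} =
        ⋂ i ∈ Finset.range m, {y : Cantor | y i = x i} := by
      ext y
      simp
    rw [this, Filter.biInter_finset_mem]
    intro i _
    exact ((isOpen_discrete ({x i} : Set Bool)).preimage
      (continuous_apply (A := fun _ : ℕ => Bool) i)).mem_nhds rfl
  filter_upwards [h1] with y hy
  refine hm _ fun i hi v hv => ?_
  rw [orc, hy i (Finset.mem_range.2 hi)]
  exact hv

theorem meas_phi (e k : ℕ) : MeasurableSet {p : Cantor × ℕ | Phi e p.1 k p.2} := by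
  have : {p : Cantor × ℕ | Phi e p.1 k p.2} = ⋃ a : ℕ, {x : Cantor | Phi e x k a} ×ˢ {a} := by
    ext ⟨x, a⟩
    simp
  rw [this]
  exact MeasurableSet.iUnion fun a => (isOpen_phi e k a).measurableSet.prod
    (measurableSet_singleton a)

/-- One step down in the notations, for all reals but `x₀`. -/
def T (x₀ : Cantor) (p q : Cantor × ℕ) : Prop :=
  p.1 = q.1 ∧ (p.1 ≠ x₀ ∧ InO p.1 q.2) ∧
    (q.2 = 2 ^ p.2 ∨ ∃ e k, q.2 = 3 * 5 ^ e ∧ Phi e p.1 k p.2)

theorem phi_unique {e : ℕ} {x : Cantor} {k a b : ℕ} (h1 : Phi e x k a) (h2 : Phi e x k b) :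
    a = b := Part.mem_unique h1 h2

theorem T_wf (x₀ : Cantor) : IsWellFounded _ (T x₀) := by
  have hout : ∀ x b, ¬ InO x b → Acc (T x₀) (x, b) := by
    intro x b h
    refine Acc.intro _ fun p hp => ?_
    obtain ⟨h1, ⟨-, h2⟩, -⟩ := hp
    rw [h1] at h2
    exact absurd h2 h
  have hin : ∀ x b, InO x b → Acc (T x₀) (x, b) := by
    intro x b hb
    refine InO.rec (x := x) (motive_1 := fun b _ => Acc (T x₀) (x, b))
      (motive_2 := fun a _ _ => Acc (T x₀) (x, a)) ?_ ?_ ?_ ?_ ?_ ?_ hb
    · refine Acc.intro _ ?_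
      rintro ⟨y, a⟩ ⟨h1, -, h2⟩
      simp only at h1 h2
      subst h1
      rcases h2 with h2 | ⟨e, k, h2, -⟩
      · refine hout _ _ fun ha => ?_
        have ha0 : a = 0 := by
          by_contra h
          have : 1 < 2 ^ a := Nat.one_lt_two_pow h
          omega
        subst ha0
        generalize hc : 0 = c at ha
        cases ha with
        | one => omega
        | succ ha => have := Nat.two_pow_pos ‹ℕ›
                     omega
        | lim f hf h => have : 0 < 3 * 5 ^ ‹ℕ› := by positivity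
                        omega
      · exfalso
        have : 0 < 5 ^ e := by positivity
        omega
    · intro c hc ih
      refine Acc.intro _ ?_
      rintro ⟨y, a⟩ ⟨h1, -, h2⟩
      simp only at h1 h2
      subst h1
      rcases h2 with h2 | ⟨e, k, h2, -⟩
      · rw [← two_pow_inj h2]
        exact ih
      · exact absurd h2 two_pow_ne
    · intro e f hf h ih
      refine Acc.intro _ ?_
      rintro ⟨y, a⟩ ⟨h1, -, h2⟩
      simp only at h1 h2
      subst h1
      rcases h2 with h2 | ⟨e', k, h2, h3⟩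
      · exact absurd h2.symm two_pow_ne
      · have := three_five_inj h2
        subst this
        rw [phi_unique h3 (hf k)]
        exact ih k
    · intro a _ ih
      exact ih
    · intro e f hf h n ih
      exact ih n
    · intro a b c _ _ ih _
      exact ih
  exact ⟨⟨fun p => by
    by_cases h : InO p.1 p.2
    · exact hin _ _ h
    · exact hout _ _ h⟩⟩

/-- The set of notations, relative to all reals but `x₀`, is not analytic. -/
theorem not_analytic (x₀ : Cantor) :
    ¬ AnalyticSet {p : Cantor × ℕ | p.1 ≠ x₀ ∧ InO p.1 p.2} := by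
  intro hA
  have hB : MeasurableSet {p : (Cantor × ℕ) × (Cantor × ℕ) |
      p.2.2 = 2 ^ p.1.2 ∨ ∃ e k, p.2.2 = 3 * 5 ^ e ∧ Phi e p.1.1 k p.1.2} := by
    have h1 : ∀ e k, Measurable fun p : (Cantor × ℕ) × (Cantor × ℕ) => Phi e p.1.1 k p.1.2 := by
      intro e k
      have : Measurable fun p : Cantor × ℕ => Phi e p.1 k p.2 :=
        measurableSet_setOfPred.1 (meas_phi e k)
      exact this.comp measurable_fst
    have h2 : ∀ m, Measurable fun p : (Cantor × ℕ) × (Cantor × ℕ) => p.2.2 = m := by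
      intro m
      exact measurableSet_setOfPred.1 (measurableSet_eq_fun (by fun_prop) (by fun_prop))
    have h3 : Measurable fun p : (Cantor × ℕ) × (Cantor × ℕ) => p.2.2 = 2 ^ p.1.2 := by
      refine measurableSet_setOfPred.1 (measurableSet_eq_fun (by fun_prop) ?_)
      exact (measurable_from_nat (f := fun n => 2 ^ n)).comp (by fun_prop)
    refine measurableSet_setOfPred.2 (h3.or ?_)
    exact Measurable.exists fun e => Measurable.exists fun k => (h2 _).and (h1 e k)
  have hwf := T_wf x₀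
  obtain ⟨α, hα, hr⟩ := km (T x₀) (analytic_rel hA hB)
  have hlt : α + 1 + 1 < ω₁ :=
    (Cardinal.isSuccLimit_omega 1).succ_lt ((Cardinal.isSuccLimit_omega 1).succ_lt hα)
  obtain ⟨j, hj⟩ := Set.countable_iff_exists_injOn.1 (countable_Iio hlt)
  have hne : real j (α + 1 + 1) (!(x₀ 0)) ≠ x₀ := by
    intro h
    have := congrFun h 0
    rw [real_zero] at this
    cases h : x₀ 0 <;> simp [h] at this
  have := (nu_main hlt hj (!(x₀ 0)) (T := T x₀)
    (fun c hc => ⟨rfl, ⟨hne, hc⟩, Or.inl rfl⟩)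
    (fun c e k hc hp => ⟨rfl, ⟨hne, hc⟩, Or.inr ⟨e, k, rfl, hp⟩⟩) (α + 1)
    (Order.lt_add_one_iff.2 le_rfl)).2.2
  have h2 := this.trans (hr _)
  exact absurd (Order.lt_add_one_iff.2 le_rfl) (not_lt.2 h2)

/-- Boundedness: a Borel map takes only boundedly many order types. -/
theorem bounded (x₀ : Cantor) {R : Cantor → Cantor} (hR : Measurable R)
    (hW : ∀ x, x ≠ x₀ → WO (R x)) :
    ∃ β : Ordinal.{0}, β < ω₁ ∧ ∀ x (h : x ≠ x₀), otype (R x) (hW x h) < β := by
  let r : Cantor × ℕ → Cantor × ℕ → Prop := fun p q =>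
    p.1 = q.1 ∧ (p.1, q.2) ∈ (fun p : Cantor × ℕ => (R p.1, p.2)) '' {p | p.1 ≠ x₀} ∧
      (p, q) ∈ {p : (Cantor × ℕ) × (Cantor × ℕ) | rel p.1.1 p.1.2 p.2.2}
  have hA : AnalyticSet ((fun p : Cantor × ℕ => (R p.1, p.2)) '' {p | p.1 ≠ x₀}) := by
    refine MeasurableSet.analyticSet_image ?_ ?_
    · exact (measurableSet_singleton x₀).compl.preimage measurable_fst
    · exact (hR.comp measurable_fst).prodMk measurable_snd
  have hB : MeasurableSet {p : (Cantor × ℕ) × (Cantor × ℕ) | rel p.1.1 p.1.2 p.2.2} := by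
    have : {p : (Cantor × ℕ) × (Cantor × ℕ) | rel p.1.1 p.1.2 p.2.2} =
        {p | ∃ m n, (p.1.2 = m ∧ p.2.2 = n) ∧ p.1.1 (Nat.pair m n) = true} := by
      ext p
      simp [rel]
    rw [this]
    refine measurableSet_setOfPred.2 (Measurable.exists fun m => Measurable.exists fun n =>
      (Measurable.and ?_ ?_).and ?_)
    · exact measurableSet_setOfPred.1 (measurableSet_eq_fun (by fun_prop) (by fun_prop))
    · exact measurableSet_setOfPred.1 (measurableSet_eq_fun (by fun_prop) (by fun_prop))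
    · exact measurableSet_setOfPred.1 (measurableSet_eq_fun (by fun_prop) (by fun_prop))
  have hwf : IsWellFounded _ r := by
    refine ⟨⟨fun p => ?_⟩⟩
    obtain ⟨y, n⟩ := p
    by_cases hy : ∃ x, x ≠ x₀ ∧ R x = y
    · obtain ⟨x, hx, rfl⟩ := hy
      have : IsWellOrder ℕ (rel (R x)) := hW x hx
      induction n using (IsWellFounded.wf (r := rel (R x))).induction with
      | _ n ih =>
        refine Acc.intro _ ?_
        rintro ⟨z, m⟩ ⟨h1, -, h2⟩
        simp only at h1
        subst h1
        exact ih m h2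
    · refine Acc.intro _ ?_
      rintro ⟨z, m⟩ ⟨h1, ⟨⟨x, k⟩, hx, h2⟩, -⟩
      simp only [Prod.mk.injEq] at h1 h2
      exact absurd ⟨x, hx, h2.1.trans h1⟩ hy
  obtain ⟨α, hα, hr⟩ := km r (analytic_rel hA hB)
  have hlt : α + 1 + 1 < ω₁ :=
    (Cardinal.isSuccLimit_omega 1).succ_lt ((Cardinal.isSuccLimit_omega 1).succ_lt hα)
  refine ⟨α + 1 + 1, hlt, fun x h => Order.lt_add_one_iff.2 ?_⟩
  have : IsWellOrder ℕ (rel (R x)) := hW x h
  have key : ∀ n, IsWellFounded.rank (rel (R x)) n ≤ IsWellFounded.rank r (R x, n) := by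
    intro n
    induction n using (IsWellFounded.wf (r := rel (R x))).induction with
    | _ n ih =>
      rw [IsWellFounded.rank_eq]
      refine Ordinal.iSup_le ?_
      rintro ⟨m, hm⟩
      refine Order.succ_le_of_lt (lt_of_le_of_lt (ih m hm) (IsWellFounded.rank_lt_of_rel ?_))
      exact ⟨rfl, ⟨(x, n), h, rfl⟩, hm⟩
  refine le_of_forall_lt fun c hc => Order.lt_add_one_iff.2 ?_
  obtain ⟨n, rfl⟩ := Ordinal.typein_surj (rel (R x)) hc
  have h3 := (key n).trans (hr _)
  rwa [IsWellFounded.rank_eq_typein] at h3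

/-- `i` is the graph of an isomorphism from the structure coded by `y` to the one coded by `z`. -/
def IsoGraph (i y z : Cantor) : Prop :=
  (∀ m, ∃ k, i (Nat.pair m k) = true) ∧
  (∀ m k k', i (Nat.pair m k) = true → i (Nat.pair m k') = true → k = k') ∧
  (∀ k, ∃ m, i (Nat.pair m k) = true) ∧
  (∀ m m' k, i (Nat.pair m k) = true → i (Nat.pair m' k) = true → m = m') ∧
  (∀ m m' k k', i (Nat.pair m k) = true → i (Nat.pair m' k') = true →
    (y (Nat.pair m m') = true ↔ z (Nat.pair k k') = true))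

theorem isoGraph_of {i y z : Cantor} (e : rel y ≃r rel z)
    (h : ∀ m k, i (Nat.pair m k) = true ↔ e m = k) : IsoGraph i y z := by
  simp only [IsoGraph, h]
  refine ⟨fun m => ⟨_, rfl⟩, fun m k k' h1 h2 => h1.symm.trans h2, fun k => ?_,
    fun m m' k h1 h2 => ?_, fun m m' k k' h1 h2 => ?_⟩
  · exact ⟨e.symm k, e.apply_symm_apply k⟩
  · exact e.injective (h1.trans h2.symm)
  · rw [← h1, ← h2]
    exact e.map_rel_iff.symm

theorem IsoGraph.exists_iso {i y z : Cantor} (h : IsoGraph i y z) :
    ∃ e : rel y ≃r rel z, ∀ m k, i (Nat.pair m k) = true ↔ e m = k := by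
  obtain ⟨h1, h2, h3, h4, h5⟩ := h
  choose f hf using h1
  have hfi : ∀ m k, i (Nat.pair m k) = true ↔ f m = k := fun m k =>
    ⟨fun h => h2 m _ _ (hf m) h, fun h => h ▸ hf m⟩
  have hb : Function.Bijective f := by
    refine ⟨fun a b hab => h4 a b (f a) (hf a) (by rw [hab]; exact hf b), fun k => ?_⟩
    obtain ⟨m, hm⟩ := h3 k
    exact ⟨m, (hfi m k).1 hm⟩
  exact ⟨⟨Equiv.ofBijective f hb, fun {a b} => (h5 a b _ _ (hf a) (hf b)).symm⟩, hfi⟩

theorem otype_eq_of_iso {y z : Cantor} (hy : WO y) (hz : WO z) (e : rel y ≃r rel z) :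
    otype y hy = otype z hz := by
  have : IsWellOrder ℕ (rel y) := hy
  have : IsWellOrder ℕ (rel z) := hz
  exact Ordinal.type_eq.2 ⟨e⟩

theorem wo_of_iso {y z : Cantor} (hy : WO y) (e : rel y ≃r rel z) : WO z := by
  have : IsWellOrder ℕ (rel y) := hy
  exact e.symm.toRelEmbedding.isWellOrder

theorem isoGraph_fun {y : Cantor} (hy : WO y) : IsoGraph (Fun y) y (rep (otype y hy)) :=
  isoGraph_of (toRep y hy) fun m k => fun_apply hy m k

theorem eq_fun_of_isoGraph {i y : Cantor} (hy : WO y) (h : IsoGraph i y (rep (otype y hy))) :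
    i = Fun y := by
  obtain ⟨e, he⟩ := h.exists_iso
  have hz : WO (rep (otype y hy)) := wo_of_iso hy e
  have : IsWellOrder ℕ (rel y) := hy
  have : IsWellOrder ℕ (rel (rep (otype y hy))) := hz
  have h1 : ∀ m, e m = toRep y hy m := by
    intro m
    have := Subsingleton.elim e.toInitialSeg (toRep y hy).toInitialSeg
    exact congrArg (fun g : rel y ≼i rel (rep (otype y hy)) => g m) this
  funext n
  rw [← Nat.pair_unpair n]
  have h2 : i (Nat.pair n.unpair.1 n.unpair.2) = true ↔
      Fun y (Nat.pair n.unpair.1 n.unpair.2) = true := by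
    rw [he, fun_apply hy, h1]
  cases h3 : i (Nat.pair n.unpair.1 n.unpair.2) <;>
    cases h4 : Fun y (Nat.pair n.unpair.1 n.unpair.2) <;> simp_all

theorem no_borel_reduction : ¬ ∃ R₀ R₁ : Cantor → Cantor, Measurable R₀ ∧ Measurable R₁ ∧
    ∀ x, R₁ (Fun (R₀ x)) = KleeneO x := by
  rintro ⟨R₀, R₁, h0, h1, hR⟩
  -- all but at most one value of `R₀` is a well-ordering
  obtain ⟨x₀, hx₀⟩ : ∃ x₀, ∀ x, x ≠ x₀ → WO (R₀ x) := by
    by_cases h : ∃ x₀, ¬ WO (R₀ x₀)
    · obtain ⟨x₀, hx⟩ := h
      refine ⟨x₀, fun x hne => ?_⟩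
      by_contra hc
      apply hne
      apply kleeneO_inj
      rw [← hR, ← hR, fun_of_not hx, fun_of_not hc]
    · push Not at h
      exact ⟨fun _ => false, fun x _ => h x⟩
  obtain ⟨β, hβ, hb⟩ := bounded x₀ h0 hx₀
  let A : Set Ordinal.{0} := {o | ∃ x, ∃ h : x ≠ x₀, otype (R₀ x) (hx₀ x h) = o}
  have hA : A.Countable := (countable_Iio hβ).mono (by
    rintro o ⟨x, h, rfl⟩
    exact hb x h)
  have := hA.to_subtype
  refine not_analytic x₀ ?_
  let S : A → Set ((Cantor × ℕ) × Cantor) := fun o =>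
    {q | q.1.1 ≠ x₀ ∧ IsoGraph q.2 (R₀ q.1.1) (rep o.1) ∧ R₁ q.2 q.1.2 = true}
  have hS : ∀ o, MeasurableSet (S o) := by
    intro o
    have g1 : ∀ n, Measurable fun q : (Cantor × ℕ) × Cantor => q.2 n = true := fun n =>
      measurableSet_setOfPred.1 (measurableSet_eq_fun (by fun_prop) (by fun_prop))
    have g2 : ∀ n, Measurable fun q : (Cantor × ℕ) × Cantor => R₀ q.1.1 n = true := fun n => by
      have : Measurable fun q : (Cantor × ℕ) × Cantor => R₀ q.1.1 := h0.comp (by fun_prop)
      exact measurableSet_setOfPred.1 (measurableSet_eq_fun (by fun_prop) (by fun_prop))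
    have g3 : Measurable fun q : (Cantor × ℕ) × Cantor => IsoGraph q.2 (R₀ q.1.1) (rep o.1) := by
      refine Measurable.and ?_ (Measurable.and ?_ (Measurable.and ?_ (Measurable.and ?_ ?_)))
      · exact Measurable.forall fun m => Measurable.exists fun k => g1 _
      · exact Measurable.forall fun m => Measurable.forall fun k => Measurable.forall fun k' =>
          (g1 _).imp ((g1 _).imp measurable_const)
      · exact Measurable.forall fun m => Measurable.exists fun k => g1 _
      · exact Measurable.forall fun m => Measurable.forall fun k => Measurable.forall fun k' =>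
          (g1 _).imp ((g1 _).imp measurable_const)
      · exact Measurable.forall fun m => Measurable.forall fun m' => Measurable.forall fun k =>
          Measurable.forall fun k' => (g1 _).imp ((g1 _).imp ((g2 _).iff measurable_const))
    have g4 : Measurable fun q : (Cantor × ℕ) × Cantor => q.1.1 ≠ x₀ := by
      refine Measurable.not ?_
      refine measurableSet_setOfPred.1 ?_
      exact (measurableSet_singleton x₀).preimage (f := fun q : (Cantor × ℕ) × Cantor => q.1.1)
        (by fun_prop)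
    have g5 : Measurable fun q : (Cantor × ℕ) × Cantor => R₁ q.2 q.1.2 = true := by
      have : (fun q : (Cantor × ℕ) × Cantor => R₁ q.2 q.1.2 = true) =
          fun q => ∃ b, q.1.2 = b ∧ R₁ q.2 b = true := by
        funext q
        simp
      rw [this]
      refine Measurable.exists fun b => Measurable.and ?_ ?_
      · exact measurableSet_setOfPred.1 (measurableSet_eq_fun (by fun_prop) (by fun_prop))
      · have : Measurable fun q : (Cantor × ℕ) × Cantor => R₁ q.2 := h1.comp (by fun_prop)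
        exact measurableSet_setOfPred.1 (measurableSet_eq_fun (by fun_prop) (by fun_prop))
    exact measurableSet_setOfPred.2 (g4.and (g3.and g5))
  have hU : {p : Cantor × ℕ | p.1 ≠ x₀ ∧ InO p.1 p.2} = ⋃ o : A, Prod.fst '' (S o) := by
    ext ⟨x, b⟩
    simp only [mem_ofPred_eq, mem_iUnion, mem_image, Prod.exists, exists_and_right,
      exists_eq_right]
    constructor
    · rintro ⟨hx, hb⟩
      refine ⟨⟨_, x, hx, rfl⟩, Fun (R₀ x), hx, isoGraph_fun (hx₀ x hx), ?_⟩
      rw [hR, kleeneO_apply]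
      exact hb
    · rintro ⟨⟨o, x', hx', rfl⟩, i, hx, hi, hv⟩
      have hx : x ≠ x₀ := hx
      have hv : R₁ i b = true := hv
      have hi : IsoGraph i (R₀ x) (rep (otype (R₀ x') (hx₀ x' hx'))) := hi
      refine ⟨hx, ?_⟩
      have he : otype (R₀ x') (hx₀ x' hx') = otype (R₀ x) (hx₀ x hx) := by
        obtain ⟨e, -⟩ := hi.exists_iso
        have e' := toRep (R₀ x') (hx₀ x' hx')
        exact otype_eq_of_iso _ _ (e'.trans e.symm)
      rw [he] at hi
      rw [eq_fun_of_isoGraph _ hi, hR, kleeneO_apply] at hv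
      exact hv
  rw [hU]
  exact AnalyticSet.iUnion fun o => (hS o).analyticSet_image measurable_fst

end Pool.Agent.X235.Clar
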